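import Pool.Agent.helper69.SN.SpecB

/-!
# sn:xLOC: local estimates for the Moreau envelope (project sn, MP_d2d7b9)
-/

set_option linter.unusedVariables false

open scoped Pointwise ContDiff
open MeasureTheory Set Filter Topology

namespace Pool.Agent.helper69.SN

open Pool.Agent.helper83.SC

theorem xLOC : xLOC_stmt := by
  intro m κ e R L P hκ he hL hP hmor hLip x hx
  set d : ℝ := ‖x - P x‖ with hd
  have hd0 : 0 ≤ d := norm_nonneg _
  have h1 := hP x x
  rw [sub_self, norm_zero] at h1
  have h1' : κ (P x) + d ^ 2 / (2 * e) ≤ κ x := by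
    have : (0 : ℝ) ^ 2 / (2 * e) = 0 := by simp
    rw [this, add_zero] at h1
    exact h1
  -- the key estimate
  have hkey : κ x - L * d ≤ κ (P x) := by
    by_cases hd1 : d ≤ 1
    · have hPx : ‖P x‖ ≤ R + 1 := by
        calc ‖P x‖ = ‖x - (x - P x)‖ := by congr 1; abel
          _ ≤ ‖x‖ + ‖x - P x‖ := norm_sub_le _ _
          _ ≤ R + 1 := by linarith
      have h2 := hLip x (P x) (by linarith) hPx
      have h3 := (abs_le.1 h2).2
      linarith
    · have hd1' : 1 < d := lt_of_not_ge hd1
      have hdpos : 0 < d := by linarith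
      set z : E m := (1 - 1 / d) • x + (1 / d) • P x with hz
      have hxz : x - z = (1 / d) • (x - P x) := by
        rw [hz, smul_sub, sub_smul, one_smul]
        abel
      have hnz : ‖x - z‖ = 1 := by
        rw [hxz, norm_smul, Real.norm_of_nonneg (by positivity), ← hd]
        field_simp
      have hzR : ‖z‖ ≤ R + 1 := by
        calc ‖z‖ = ‖x - (x - z)‖ := by congr 1; abel
          _ ≤ ‖x‖ + ‖x - z‖ := norm_sub_le _ _
          _ ≤ R + 1 := by rw [hnz]; linarith
      have h2 := hLip x z (by linarith) hzR
      rw [hnz, mul_one] at h2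
      have h3 := (abs_le.1 h2).2
      have h4 : κ z ≤ (1 - 1 / d) * κ x + (1 / d) * κ (P x) := by
        have hκ' : ConvexOn ℝ Set.univ κ := hκ
        have ha : (0 : ℝ) ≤ 1 - 1 / d := by
          have : 1 / d ≤ 1 := by rw [div_le_one hdpos]; exact hd1'.le
          linarith
        have hb : (0 : ℝ) ≤ 1 / d := by positivity
        have hab : (1 - 1 / d) + 1 / d = 1 := by ring
        have h5 := hκ'.2 (mem_univ x) (mem_univ (P x)) ha hb hab
        exact h5
      have h6 : (1 / d) * (κ x - κ (P x)) ≤ L := by
        have : (1 / d) * (κ x - κ (P x)) = κ x - ((1 - 1 / d) * κ x + (1 / d) * κ (P x)) := by ring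
        rw [this]
        linarith
      have h7 : κ x - κ (P x) ≤ L * d := by
        have h8 := mul_le_mul_of_nonneg_right h6 hdpos.le
        have h9 : (1 / d) * (κ x - κ (P x)) * d = κ x - κ (P x) := by field_simp
        rw [h9] at h8
        exact h8
      linarith
  have hd2 : d ≤ 2 * e * L := by
    by_contra hcon
    have hcon' : 2 * e * L < d := lt_of_not_ge hcon
    have hdpos : 0 < d := by
      have : 0 ≤ 2 * e * L := by positivity
      linarith
    have h2 : d ^ 2 / (2 * e) ≤ L * d := by linarith
    rw [div_le_iff₀ (by positivity)] at h2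
    nlinarith
  refine ⟨hd2, ?_⟩
  rw [hmor x, ← hd]
  have h3 : 0 ≤ d ^ 2 / (2 * e) := by positivity
  have h4 : L * d ≤ L * (2 * e * L) := by gcongr
  nlinarith

end Pool.Agent.helper69.SN
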