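import Pool.Agent.helper69.SN.SpecB
import Pool.Agent.helper53.SC.HS1

/-!
# sn:xMLC: the mollified envelope is in the class up to `2 δ` (project sn, MP_d2d7b9)
-/

set_option linter.unusedVariables false

open scoped Pointwise ContDiff
open MeasureTheory Set Filter Topology

namespace Pool.Agent.helper69.SN

open Pool.Agent.helper83.SC

theorem MLC_ent {m : ℕ} {A : Mat m} (hA : A.IsHermitian) {c' c : ℝ} (h0 : 0 ≤ c')
    (hc : (m : ℝ) * c' ≤ c) (h : ∀ i j, |A i j| ≤ c') : (c • (1 : Mat m) - A).PosSemidef := by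
  classical
  have h1 : (c • (1 : Mat m)).IsHermitian := by
    rw [Matrix.IsHermitian, Matrix.conjTranspose_smul, Matrix.conjTranspose_one]
    simp
  refine Matrix.PosSemidef.of_dotProduct_mulVec_nonneg (h1.sub hA) fun x => ?_
  rw [Matrix.sub_mulVec, dotProduct_sub, Matrix.smul_mulVec, Matrix.one_mulVec, dotProduct_smul]
  have h2 : star x ⬝ᵥ x = ∑ i, x i ^ 2 := by
    simp only [dotProduct, star_trivial]
    exact Finset.sum_congr rfl fun i _ => by ring
  have h3 : star x ⬝ᵥ A.mulVec x = ∑ i, ∑ j, x i * A i j * x j := by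
    simp only [dotProduct, star_trivial, Matrix.mulVec]
    refine Finset.sum_congr rfl fun i _ => ?_
    rw [Finset.mul_sum]
    exact Finset.sum_congr rfl fun j _ => by ring
  have h4 : ∑ i, ∑ j, x i * A i j * x j ≤ ∑ i : Fin m, ∑ j : Fin m, c' * ((x i ^ 2 + x j ^ 2) / 2) := by
    refine Finset.sum_le_sum fun i _ => Finset.sum_le_sum fun j _ => ?_
    have h5 : x i * A i j * x j ≤ |A i j| * |x i * x j| := by
      rw [← abs_mul]
      refine le_trans (le_of_eq ?_) (le_abs_self _)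
      ring
    have h6 : |x i * x j| ≤ (x i ^ 2 + x j ^ 2) / 2 := by
      rw [abs_le]
      constructor
      · nlinarith [sq_nonneg (x i + x j)]
      · nlinarith [sq_nonneg (x i - x j)]
    calc x i * A i j * x j ≤ |A i j| * |x i * x j| := h5
      _ ≤ c' * ((x i ^ 2 + x j ^ 2) / 2) := by
        exact mul_le_mul (h i j) h6 (abs_nonneg _) h0
  have h7 : ∑ i : Fin m, ∑ j : Fin m, c' * ((x i ^ 2 + x j ^ 2) / 2) = m * c' * ∑ i, x i ^ 2 := by
    have h8 : ∀ i : Fin m, ∑ j : Fin m, c' * ((x i ^ 2 + x j ^ 2) / 2)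
        = c' / 2 * (m * x i ^ 2) + c' / 2 * ∑ j, x j ^ 2 := by
      intro i
      rw [Finset.mul_sum]
      have : ∀ j : Fin m, c' * ((x i ^ 2 + x j ^ 2) / 2) = c' / 2 * x i ^ 2 + c' / 2 * x j ^ 2 :=
        fun j => by ring
      rw [Finset.sum_congr rfl fun j _ => this j, Finset.sum_add_distrib]
      simp
      ring
    rw [Finset.sum_congr rfl fun i _ => h8 i, Finset.sum_add_distrib, ← Finset.mul_sum,
      ← Finset.mul_sum]
    simp
    ring
  have h9 : 0 ≤ ∑ i, x i ^ 2 := Finset.sum_nonneg fun i _ => sq_nonneg _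
  rw [h2, h3, smul_eq_mul]
  have h10 : (m : ℝ) * c' * ∑ i, x i ^ 2 ≤ c * ∑ i, x i ^ 2 := mul_le_mul_of_nonneg_right hc h9
  rw [h7] at h4
  linarith

/-- Uniform bound on balls. -/
theorem MLC_bdd {m n : ℕ} (B : E m → Fin n → Mat m) (hB : ∀ x, Psd (B x))
    (hBc : ∀ i, Continuous fun x => B x i) (R : ℝ) :
    ∃ b : ℝ, 0 ≤ b ∧ ∀ x, ‖x‖ ≤ R → Le (B x) b := by
  let F : E m → (Fin n → Fin m → Fin m → ℝ) := fun x i a b => B x i a b
  have hF : Continuous F := by
    refine continuous_pi fun i => continuous_pi fun a => continuous_pi fun b => ?_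
    exact (hBc i).matrix_elem a b
  obtain ⟨b0, hb0⟩ := (isCompact_closedBall (0 : E m) R).exists_bound_of_continuousOn
    hF.continuousOn
  refine ⟨(m : ℝ) * max b0 0, by positivity, fun x hx i => ?_⟩
  refine MLC_ent (hB x i).isHermitian (le_max_right _ _) le_rfl fun a c => ?_
  have h1 := hb0 x (by simpa using hx)
  have h2 : |F x i a c| ≤ ‖F x‖ := by
    calc |F x i a c| = ‖F x i a c‖ := rfl
      _ ≤ ‖F x i a‖ := norm_le_pi_norm _ _
      _ ≤ ‖F x i‖ := norm_le_pi_norm _ _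
      _ ≤ ‖F x‖ := norm_le_pi_norm _ _
  exact h2.trans (h1.trans (le_max_left _ _))

/-- Uniform continuity on balls. -/
theorem MLC_uc {m n : ℕ} (B : E m → Fin n → Mat m) (hB : ∀ x, Psd (B x))
    (hBc : ∀ i, Continuous fun x => B x i) (R η : ℝ) (hη : 0 < η) :
    ∃ ρ : ℝ, 0 < ρ ∧ ∀ x y, ‖x‖ ≤ R → ‖y‖ ≤ R → ‖x - y‖ ≤ ρ → ∀ i,
      (η • (1 : Mat m) - (B x i - B y i)).PosSemidef := by
  let F : E m → (Fin n → Fin m → Fin m → ℝ) := fun x i a b => B x i a b
  have hF : Continuous F := by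
    refine continuous_pi fun i => continuous_pi fun a => continuous_pi fun b => ?_
    exact (hBc i).matrix_elem a b
  have huc := (isCompact_closedBall (0 : E m) R).uniformContinuousOn_of_continuous
    hF.continuousOn
  have hc : 0 < η / ((m : ℝ) + 1) := by positivity
  obtain ⟨r, hr, hr2⟩ := Metric.uniformContinuousOn_iff.1 huc _ hc
  refine ⟨r / 2, by positivity, fun x y hx hy hxy i => ?_⟩
  have h1 := hr2 x (by simpa using hx) y (by simpa using hy)
    (by rw [dist_eq_norm]; linarith)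
  refine MLC_ent ((hB x i).isHermitian.sub (hB y i).isHermitian) hc.le ?_ fun a c => ?_
  · rw [← mul_div_assoc, div_le_iff₀ (by positivity)]
    nlinarith
  · have h2 : |F x i a c - F y i a c| ≤ dist (F x) (F y) := by
      calc |F x i a c - F y i a c| = dist (F x i a c) (F y i a c) := rfl
        _ ≤ dist (F x i a) (F y i a) := dist_le_pi_dist _ _ _
        _ ≤ dist (F x i) (F y i) := dist_le_pi_dist _ _ _
        _ ≤ dist (F x) (F y) := dist_le_pi_dist _ _ _
    exact h2.trans h1.le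

theorem xMLC (hAPC : xAPC_stmt) (hPER : aPER_stmt) (hMOB : mMOB_stmt) (hMOC : mMOC_stmt)
    (hPRX : xPRX_stmt) (hCLS : bCLS_stmt) (hCLO : aCLO_stmt) (hCL2 : aCL2_stmt) : xMLC_stmt := by
  intro m n B hB hBc κ hκ R δ hδ
  obtain ⟨e₀, he₀, hA⟩ := hAPC B hB hBc κ hκ (R + 1) δ hδ
  obtain ⟨b, hb0, hb⟩ := MLC_bdd B hB hBc (R + 1)
  obtain ⟨η, hη, hP⟩ := hPER (m := m) (n := n) b δ hb0 hδ
  obtain ⟨ρ, hρ, hU⟩ := MLC_uc B hB hBc (R + 1) η hη
  refine ⟨e₀, min ρ 1, he₀, lt_min hρ one_pos, ?_⟩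
  intro e he hee φ hφ x hx
  have hφ1 : φ.rOut ≤ ρ := hφ.trans (min_le_left _ _)
  have hφ2 : φ.rOut ≤ 1 := hφ.trans (min_le_right _ _)
  choose g hgS hgc hgG using fun k : ℕ => hA e he hee (1 / ((k : ℝ) + 1)) (by positivity)
  have hcv : CV κ := ((hCLS B hB).2.1 κ hκ).1
  obtain ⟨P, hP1, hP2, hP3, hP4, hP5, hP6⟩ := hPRX κ e hcv he
  have hmc : Continuous (mor κ e) := continuous_iff_continuousAt.2 fun y => (hP5 y).continuousAt
  have hrad : ∀ y, ‖y - x‖ ≤ φ.rOut → ‖y‖ ≤ R + 1 := by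
    intro y hy
    calc ‖y‖ = ‖(y - x) + x‖ := by congr 1; abel
      _ ≤ ‖y - x‖ + ‖x‖ := norm_add_le _ _
      _ ≤ R + 1 := by linarith
  have hxR : ‖x‖ ≤ R + 1 := by linarith
  -- convergence of the Hessians
  have hT := hMOC φ (mor κ e) g hmc (fun k => (hgS k).1.continuous) x (by
    intro ε hε
    obtain ⟨k₀, hk₀⟩ := exists_nat_one_div_lt hε
    refine ⟨k₀, fun k hk y hy => (hgc k y (hrad y hy)).trans ?_⟩
    refine le_trans ?_ hk₀.le
    have : (k₀ : ℝ) ≤ k := by exact_mod_cast hk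
    gcongr)
  -- the closed convex set
  let Q : Set (Mat m) := {M | M - ∑ i, B x i + (2 * δ) • (1 : Mat m) ∈ GG (B x)}
  have hQc : IsClosed Q := by
    have hcont : Continuous (fun M : Mat m => ((B x, M - ∑ i, B x i + (2 * δ) • (1 : Mat m)) :
        (Fin n → Mat m) × Mat m)) := by fun_prop
    exact (hCL2 (m := m) (n := n)).preimage hcont
  have hQv : Convex ℝ Q := by
    intro M hM N hN a c ha hc hac
    have h1 := (hCLO (B x) (hB x)).1 hM hN ha hc hac
    have h2 : a • (M - ∑ i, B x i + (2 * δ) • (1 : Mat m)) + c • (N - ∑ i, B x i + (2 * δ) • (1 : Mat m))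
        = (a • M + c • N) - ∑ i, B x i + (2 * δ) • (1 : Mat m) := by
      have hc' : c = 1 - a := by linarith
      subst hc'
      module
    rw [h2] at h1
    exact h1
  have hmem : ∀ k, hess (mol φ (g k)) x ∈ Q := by
    intro k
    refine hMOB φ (g k) (hgS k).1 x Q hQc hQv fun y hy => ?_
    have hyR := hrad y hy
    have hpsd : (hess (g k) y).PosSemidef := hess_psd_of (hgS k).1 (hgS k).2 y
    have hδ1 : (δ • (1 : Mat m)).PosSemidef := Matrix.PosSemidef.one.smul hδ.le
    have hη1 : (η • (1 : Mat m)).PosSemidef := Matrix.PosSemidef.one.smul hη.le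
    have hN : (hess (g k) y + δ • (1 : Mat m)).PosSemidef := hpsd.add hδ1
    have hyx : ‖y - x‖ ≤ ρ := hy.trans hφ1
    have hxy : ‖x - y‖ ≤ ρ := by rw [norm_sub_rev]; exact hyx
    have h1 : ∀ i, (η • (1 + (hess (g k) y + δ • (1 : Mat m))) - (B y i - B x i)).PosSemidef := by
      intro i
      have h2 := (hU y x hyR hxR hyx i).add (hN.smul hη.le)
      have h3 : η • (1 : Mat m) - (B y i - B x i) + η • (hess (g k) y + δ • (1 : Mat m))
          = η • (1 + (hess (g k) y + δ • (1 : Mat m))) - (B y i - B x i) := by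
        rw [smul_add η (1 : Mat m)]; abel
      rw [h3] at h2
      exact h2
    have h1' : ∀ i, (η • (1 + (hess (g k) y + δ • (1 : Mat m))) - (B x i - B y i)).PosSemidef := by
      intro i
      have h2 := (hU x y hxR hyR hxy i).add (hN.smul hη.le)
      have h3 : η • (1 : Mat m) - (B x i - B y i) + η • (hess (g k) y + δ • (1 : Mat m))
          = η • (1 + (hess (g k) y + δ • (1 : Mat m))) - (B x i - B y i) := by
        rw [smul_add η (1 : Mat m)]; abel
      rw [h3] at h2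
      exact h2
    have h4 : hess (g k) y + δ • (1 : Mat m) - ∑ i, B y i + η • (1 : Mat m) ∈ GG (B y) := by
      have h5 := (hCLO (B y) (hB y)).2.1 _ _ (hgG k y hyR) hη1
      have h6 : hess (g k) y - ∑ i, B y i + δ • (1 : Mat m) + η • (1 : Mat m)
          = hess (g k) y + δ • (1 : Mat m) - ∑ i, B y i + η • (1 : Mat m) := by abel
      rw [h6] at h5
      exact h5
    have h7 := hP (B y) (B x) _ (hB y) (hB x) (hb y hyR) (hb x hxR) hN h1 h1' h4
    have h8 : hess (g k) y + δ • (1 : Mat m) - ∑ i, B x i + δ • (1 : Mat m)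
        = hess (g k) y - ∑ i, B x i + (2 * δ) • (1 : Mat m) := by
      rw [two_mul, add_smul]; abel
    rw [h8] at h7
    exact h7
  exact hQc.mem_of_tendsto hT (Eventually.of_forall hmem)

end Pool.Agent.helper69.SN
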