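import Pool.Agent.helper69.SN.SpecA
import Pool.Agent.helper35.SC.LA2

/-!
# sn:aRNK: vanishing of mixed discriminants (project sn, MP_d2d7b9)
-/

set_option linter.unusedVariables false

namespace Pool.Agent.helper69.SN

open Pool.Agent.helper83.SC

theorem aRNK_row {m : ℕ} {B : Matrix (Fin m) (Fin m) ℝ} {v : Fin m → ℝ}
    (h : (∑ a, Matrix.vecMulVec (B a) (B a)).mulVec v = 0) (a : Fin m) : B a ⬝ᵥ v = 0 := by
  have h1 : v ⬝ᵥ (∑ a, Matrix.vecMulVec (B a) (B a)).mulVec v = ∑ a, (B a ⬝ᵥ v) ^ 2 := by
    rw [Matrix.sum_mulVec, dotProduct_sum]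
    refine Finset.sum_congr rfl fun a _ => ?_
    rw [Matrix.vecMulVec_mulVec]
    simp only [dotProduct_smul, op_smul_eq_smul, smul_eq_mul]
    rw [dotProduct_comm v (B a), sq]
  rw [h, dotProduct_zero] at h1
  have h2 := (Finset.sum_eq_zero_iff_of_nonneg (fun a _ => sq_nonneg (B a ⬝ᵥ v))).1 h1.symm a
    (Finset.mem_univ a)
  exact pow_eq_zero_iff (two_ne_zero) |>.1 h2

theorem aRNK : aRNK_stmt := by
  classical
  intro m M hM D T hT hD
  choose B hB using fun j => LA2_psd_sum (hM j)
  have hrow : ∀ j ∈ T, ∀ a, (WithLp.toLp 2 (B j a) : E m) ∈ D := by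
    intro j hj a
    rw [← Submodule.orthogonal_orthogonal D, Submodule.mem_orthogonal]
    intro v hv
    have h1 := hD j hj v hv
    rw [hB j] at h1
    have h2 := aRNK_row h1 a
    rw [PiLp.inner_apply]
    simp only [RCLike.inner_apply, conj_trivial]
    exact h2
  have h1 : M = fun j => ∑ a, Matrix.vecMulVec (B j a) (B j a) := by
    funext j; exact hB j
  rw [h1, LA2_map_sum]
  refine Finset.sum_eq_zero fun c _ => ?_
  rw [LA2_rank_one (fun j => B j (c j))]
  have hdet : (Matrix.of fun j => B j (c j)).det = 0 := by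
    by_contra hne
    have hli : LinearIndependent ℝ (fun j => B j (c j)) := by
      have h3 := (Matrix.linearIndependent_rows_iff_isUnit (A := Matrix.of fun j => B j (c j))).2
        ((Matrix.isUnit_iff_isUnit_det _).2 (isUnit_iff_ne_zero.2 hne))
      exact h3
    have hli2 : LinearIndependent ℝ (fun j : T => (⟨WithLp.toLp 2 (B j.1 (c j.1)),
        hrow j.1 j.2 (c j.1)⟩ : D)) := by
      have h4 : LinearIndependent ℝ (fun j : T => B j.1 (c j.1)) :=
        hli.comp (fun j : T => j.1) Subtype.val_injective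
      have h5 : LinearIndependent ℝ (fun j : T => (WithLp.toLp 2 (B j.1 (c j.1)) : E m)) := by
        have h6 := h4.map' ((WithLp.linearEquiv 2 ℝ (Fin m → ℝ)).symm.toLinearMap)
          (LinearEquiv.ker _)
        exact h6
      exact LinearIndependent.of_comp D.subtype h5
    have h7 := hli2.fintype_card_le_finrank
    rw [Fintype.card_coe] at h7
    omega
  rw [hdet]
  ring

end Pool.Agent.helper69.SN
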